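import Mathlib

/-!
# The second derived set of each subset of a `T₀`-space is closed
-/

set_option autoImplicit false

open Set

namespace Pool.Agent.Results.MP_091ced_gt.SecondDerivedClosed

universe u

/-- the derived set of `A`: all points `x` in the closure of `A \ {x}` -/
def derived {X : Type u} [TopologicalSpace X] (A : Set X) : Set X :=
  {x | x ∈ closure (A \ {x})}

/-- In a `T₀`-space the second derived set of each subset is closed. -/
theorem result (X : Type u) [TopologicalSpace X] [T0Space X] (A : Set X) :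
    IsClosed (derived (derived A)) := by
  rw [← closure_subset_iff_isClosed]
  intro x hx
  by_contra hxd
  -- an open neighbourhood `U` of `x` in which `x` is the only possible point of `derived A`
  have h1 : x ∉ closure (derived A \ {x}) := hxd
  rw [mem_closure_iff] at h1
  push Not at h1
  obtain ⟨U, hU, hxU, hUd⟩ := h1
  have hUA : ∀ z ∈ U, z ∈ derived A → z = x := by
    intro z hz hzA
    by_contra hne
    have : z ∈ U ∩ (derived A \ {x}) := ⟨hz, hzA, hne⟩
    rw [hUd] at this
    exact this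
  obtain ⟨y, hyU, hyd⟩ := (mem_closure_iff.1 hx) U hU hxU
  have hyx : y ≠ x := by
    rintro rfl
    exact hxd hyd
  -- every open set containing `y` contains `x`, and `x ∈ derived A`
  have h2 : ∀ V, IsOpen V → y ∈ V → x ∈ V ∧ x ∈ derived A := by
    intro V hV hyV
    obtain ⟨z, ⟨hzU, hzV⟩, hzd, -⟩ := (mem_closure_iff.1 hyd) (U ∩ V) (hU.inter hV) ⟨hyU, hyV⟩
    have := hUA z hzU hzd
    subst this
    exact ⟨hzV, hzd⟩
  have hxA : x ∈ derived A := (h2 univ isOpen_univ (mem_univ _)).2
  -- as `X` is a `T₀`-space there is an open set containing `x` but not `y`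
  obtain ⟨V, hV, hxV, hyV⟩ : ∃ V, IsOpen V ∧ x ∈ V ∧ y ∉ V := by
    obtain ⟨V, hV, hV'⟩ := exists_isOpen_xor_mem hyx
    rcases hV' with ⟨h, h'⟩ | ⟨h, h'⟩
    · exact absurd (h2 V hV h).1 h'
    · exact ⟨V, hV, h, h'⟩
  -- `y` is not in `derived A`
  have hyA : y ∉ closure (A \ {y}) := fun h => hyx (hUA y hyU h)
  rw [mem_closure_iff] at hyA
  push Not at hyA
  obtain ⟨W, hW, hyW, hWA⟩ := hyA
  have hxW : x ∈ W := (h2 W hW hyW).1
  obtain ⟨a, ⟨haV, haW⟩, haA, -⟩ := (mem_closure_iff.1 hxA) (V ∩ W) (hV.inter hW) ⟨hxV, hxW⟩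
  have hay : a = y := by
    by_contra hne
    have : a ∈ W ∩ (A \ {y}) := ⟨haW, haA, hne⟩
    rw [hWA] at this
    exact this
  subst hay
  exact hyV haV

end Pool.Agent.Results.MP_091ced_gt.SecondDerivedClosed
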